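import Mathlib

set_option autoImplicit false

namespace Pool.Agent.P.MP_02a1b3_co.Ft

open List

variable {α : Type} [DecidableEq α]

/-- every repetition free word over `A` is a subsequence of `v` -/
def Univ (A : Finset α) (v : List α) : Prop :=
  ∀ l : List α, l.Nodup → (∀ x ∈ l, x ∈ A) → l.Sublist v

omit [DecidableEq α] in
theorem split {s t u v : List α} (h : (s ++ t).Sublist (u ++ v)) (hs : ¬ s.Sublist u) :
    t.Sublist v := by
  obtain ⟨l1, l2, e, h1, h2⟩ := List.sublist_append_iff.1 h
  rcases List.append_eq_append_iff.1 e with ⟨a, ha, hb⟩ | ⟨a, ha, hb⟩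
  · exact absurd ((ha ▸ List.sublist_append_left s a).trans h1) hs
  · exact (hb ▸ List.sublist_append_right a t).trans h2

theorem greedy_aux (u : List α) : ∀ G T : Finset α, T ⊆ G → T.Nonempty →
    (∀ b ∈ T, u.count b < G.card) → (∀ b ∈ G, b ∉ T → u.count b + 1 < G.card) →
    ∃ t ∈ T, ∃ σ : List α, (t :: σ).Nodup ∧ (∀ x ∈ σ, x ∈ G) ∧ ¬ (t :: σ).Sublist u := by
  induction u with
  | nil =>
    rintro G T _ ⟨t, ht⟩ _ _
    exact ⟨t, ht, [], by simp, by simp, by simp⟩
  | cons x u ih =>
    intro G T hTG hT h1 h2
    have hle : ∀ b, u.count b ≤ (x :: u).count b := fun b => List.count_le_count_cons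
    by_cases hne : (T.erase x).Nonempty
    · obtain ⟨t, ht, σ, a1, a2, a3⟩ := ih G (T.erase x) ((Finset.erase_subset _ _).trans hTG) hne
        (fun b hb => (hle b).trans_lt (h1 b (Finset.mem_of_mem_erase hb))) (by
          intro b hb hb'
          by_cases hbT : b ∈ T
          · have : b = x := by
              by_contra hh
              exact hb' (Finset.mem_erase.2 ⟨hh, hbT⟩)
            have h3 := h1 b hbT
            rw [this] at h3 ⊢
            simpa using h3
          · have := h2 b hb hbT
            have := hle b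
            omega)
      refine ⟨t, Finset.mem_of_mem_erase ht, σ, a1, a2, fun h => a3 ?_⟩
      rcases List.sublist_cons_iff.1 h with h | ⟨r, e, _⟩
      · exact h
      · exact absurd (List.cons.inj e).1 (Finset.mem_erase.1 ht).1
    · have hx : ∀ b ∈ T, b = x := by
        intro b hb
        by_contra hh
        exact hne ⟨b, Finset.mem_erase.2 ⟨hh, hb⟩⟩
      obtain ⟨t, ht⟩ := hT
      have hxT : x ∈ T := hx t ht ▸ ht
      have hxG := hTG hxT
      have hc := Finset.card_erase_of_mem hxG
      have h3 := h1 x hxT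
      simp only [List.count_cons_self] at h3
      obtain ⟨t', ht', σ, a1, a2, a3⟩ := ih (G.erase x) (G.erase x) le_rfl
        (Finset.card_pos.1 (by omega)) (by
          intro b hb
          have := h2 b (Finset.mem_of_mem_erase hb)
            (fun h => (Finset.mem_erase.1 hb).1 (hx b h))
          have := hle b
          omega) (fun b hb hb' => absurd hb hb')
      refine ⟨x, hxT, t' :: σ, ?_, ?_, fun h => a3 (List.cons_sublist_cons.1 h)⟩
      · refine List.nodup_cons.2 ⟨fun h => ?_, a1⟩
        rcases List.mem_cons.1 h with h | h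
        · exact (Finset.mem_erase.1 ht').1 h.symm
        · exact (Finset.mem_erase.1 (a2 x h)).1 rfl
      · intro y hy
        rcases List.mem_cons.1 hy with h | h
        · exact h ▸ Finset.mem_of_mem_erase ht'
        · exact Finset.mem_of_mem_erase (a2 y h)

/-- `g` letters with fewer than `g` occurrences each miss an ordering -/
theorem greedy (u : List α) (G : Finset α) (hG : G.Nonempty) (h : ∀ b ∈ G, u.count b < G.card) :
    ∃ σ : List α, σ.Nodup ∧ (∀ x ∈ σ, x ∈ G) ∧ ¬ σ.Sublist u := by
  obtain ⟨t, ht, σ, a1, a2, a3⟩ := greedy_aux u G G le_rfl hG h (fun b hb hb' => absurd hb hb')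
  refine ⟨t :: σ, a1, fun y hy => ?_, a3⟩
  rcases List.mem_cons.1 hy with h | h
  · exact h ▸ ht
  · exact a2 y h

theorem univ_filter {A : Finset α} {v : List α} (h : Univ A v) :
    Univ A (v.filter (fun x => x ∈ A)) := by
  intro l h1 h2
  have := (h l h1 h2).filter (fun x => decide (x ∈ A))
  rwa [List.filter_eq_self.2 (by simpa using h2)] at this

omit [DecidableEq α] in
theorem first_out (u : List α) (π : List α) (h : ¬ π.Sublist u) :
    ∃ p y q, π = p ++ y :: q ∧ p.Sublist u ∧ ¬ (p ++ [y]).Sublist u := by
  induction π using List.reverseRecOn with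
  | nil => exact absurd (List.nil_sublist u) h
  | append_singleton l y ih =>
    by_cases hl : l.Sublist u
    · exact ⟨l, y, [], rfl, hl, h⟩
    · obtain ⟨p, z, q, e, a1, a2⟩ := ih hl
      exact ⟨p, z, q ++ [y], by simp [e], a1, a2⟩

/-- cutting a factor out of a universal word -/
theorem cut {A G : Finset α} {u J w σ : List α} (h : Univ A (u ++ J ++ w)) (hG : G ⊆ A)
    (h1 : σ.Nodup) (h2 : ∀ x ∈ σ, x ∈ G) (h3 : ¬ σ.Sublist J) :
    Univ (A \ G) (u ++ (A \ G).toList ++ w) := by
  intro π p1 p2
  by_cases hu : π.Sublist u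
  · exact hu.trans (by rw [List.append_assoc]; exact List.sublist_append_left _ _)
  obtain ⟨p, y, q, e, a1, a2⟩ := first_out u π hu
  have hperm : ((p ++ [y]) ++ (σ ++ q)).Perm (σ ++ π) := by
    rw [e, ← List.append_assoc]
    have : σ ++ (p ++ y :: q) = (σ ++ (p ++ [y])) ++ q := by simp
    rw [this]
    exact List.Perm.append_right _ List.perm_append_comm
  have hn : (σ ++ π).Nodup := by
    refine List.nodup_append.2 ⟨h1, p1, fun a ha b hb hab => ?_⟩
    exact (Finset.mem_sdiff.1 (p2 b hb)).2 (hab ▸ h2 a ha)
  have key := h _ (hperm.nodup_iff.2 hn) (by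
    intro x hx
    rcases List.mem_append.1 (hperm.mem_iff.1 hx) with hx | hx
    · exact hG (h2 x hx)
    · exact (Finset.mem_sdiff.1 (p2 x hx)).1)
  rw [List.append_assoc u] at key
  have hq := split (split key a2) h3
  have hy : [y].Sublist (A \ G).toList :=
    List.singleton_sublist.2 (Finset.mem_toList.2 (p2 y (by simp [e])))
  have : π = p ++ [y] ++ q := by simp [e]
  rw [this]
  exact (a1.append hy).append hq

theorem len_filter {A G : Finset α} (v : List α) (hv : ∀ x ∈ v, x ∈ A) :
    (v.filter (fun x => x ∈ A \ G)).length + ∑ a ∈ G, v.count a = v.length := by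
  induction v with
  | nil => simp
  | cons x v ih =>
    have ih := ih (fun y hy => hv y (List.mem_cons_of_mem _ hy))
    have hx := hv x List.mem_cons_self
    have e : ∑ a ∈ G, (x :: v).count a = ∑ a ∈ G, v.count a + if x ∈ G then 1 else 0 := by
      simp only [List.count_cons, Finset.sum_add_distrib, beq_iff_eq]
      rw [Finset.sum_ite_eq]
    rw [e, List.filter_cons]
    by_cases hG : x ∈ G
    · simp only [Finset.mem_sdiff, hG, not_true, and_false, decide_false, if_true] at ih ⊢
      simp only [Bool.false_eq_true, if_false, List.length_cons]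
      omega
    · simp only [Finset.mem_sdiff, hG, hx, not_false_iff, and_self, decide_true, if_true,
        if_false, List.length_cons] at ih ⊢
      omega

/-- the induction step: cut out a factor in which all letters of `G` are rare -/
theorem step {A G : Finset α} {u J w : List α} (h : Univ A (u ++ J ++ w))
    (hv : ∀ x ∈ u ++ J ++ w, x ∈ A) (hG : G ⊆ A) (hne : G.Nonempty)
    (hJ : ∀ b ∈ G, J.count b < G.card) :
    ∃ v' : List α, Univ (A \ G) v' ∧ (∀ x ∈ v', x ∈ A \ G) ∧
      v'.length + J.length + ∑ a ∈ G, (u ++ J ++ w).count a ≤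
        (u ++ J ++ w).length + G.card ^ 2 + A.card := by
  obtain ⟨σ, a1, a2, a3⟩ := greedy J G hne hJ
  refine ⟨_, univ_filter (cut h hG a1 a2 a3), fun x hx => by simpa using (List.mem_filter.1 hx).2,
    ?_⟩
  have b1 := len_filter (G := G) u (fun x hx => hv x (by simp [hx]))
  have b2 := len_filter (G := G) w (fun x hx => hv x (by simp [hx]))
  have b3 : ((A \ G).toList.filter (fun x => x ∈ A \ G)).length ≤ A.card :=
    (List.length_filter_le _ _).trans (by
      rw [Finset.length_toList]; exact Finset.card_le_card Finset.sdiff_subset)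
  have b4 : ∑ a ∈ G, J.count a ≤ G.card ^ 2 := by
    rw [sq, ← smul_eq_mul]
    exact Finset.sum_le_card_nsmul _ _ _ (fun b hb => (hJ b hb).le)
  simp only [List.filter_append, List.length_append, List.count_append, Finset.sum_add_distrib]
  omega

/-- the trivial quadratic bound -/
theorem triv {A : Finset α} {v : List α} (h : Univ A v) (hv : ∀ x ∈ v, x ∈ A) :
    A.card ^ 2 ≤ 4 * v.length := by
  set g := A.card / 2 + 1 with hg
  have h1 : (A.filter (fun a => v.count a < g)).card < g := by
    by_contra hh
    obtain ⟨G, hG, hc⟩ := Finset.exists_subset_card_eq (not_lt.1 hh)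
    obtain ⟨σ, a1, a2, a3⟩ := greedy v G (Finset.card_pos.1 (by omega))
      (fun b hb => hc ▸ (Finset.mem_filter.1 (hG hb)).2)
    exact a3 (h σ a1 (fun x hx => (Finset.mem_filter.1 (hG (a2 x hx))).1))
  have h2 := Finset.card_filter_add_card_filter_not (s := A) (fun a => v.count a < g)
  have h3 := len_filter (G := A.filter (fun a => ¬ v.count a < g)) v hv
  have h4 := Finset.card_nsmul_le_sum (A.filter (fun a => ¬ v.count a < g))
    (fun a => v.count a) g (fun b hb => not_lt.1 (Finset.mem_filter.1 hb).2)
  rw [smul_eq_mul] at h4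
  set n := (A.filter (fun a => ¬ v.count a < g)).card
  have h5 : A.card ≤ 2 * n := by omega
  have h6 : A.card ≤ 2 * g := by omega
  have := Nat.mul_le_mul h5 h6
  nlinarith

end Pool.Agent.P.MP_02a1b3_co.Ft
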