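import Pool.Agent.P.MP_02a1b3_co.Ft.Count

set_option autoImplicit false

namespace Pool.Agent.P.MP_02a1b3_co.Ft

open Finset

variable {α : Type}

/-- choice of the two window scales -/
theorem params (u K : ℝ) (M : ℕ) (hu : 2 ≤ u) (hK : 108000 * u ^ 3 ≤ K) (hM1 : (M : ℝ) ≤ K ^ 2)
    (hM2 : K ^ 2 ≤ M + 1) : ∃ s N B : ℕ, 0 < s ∧ 0 < N ∧ N * s * B ≤ M ∧ (s : ℝ) ≤ 2 * u ∧
      (B : ℝ) / K ≤ 100 * u ∧ 46 * u ^ 2 ≤ s * (B / K) ∧ s * (B / K) ≤ 100 * u ^ 2 ∧
      K ≤ N * (s * (B / K) + 1) := by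
  have hu0 : 0 < u := by linarith
  have hu2 : 4 ≤ u ^ 2 := by nlinarith
  have hu3 : 2 * u ^ 2 ≤ u ^ 3 := by nlinarith
  have hu4 : 4 * u ≤ u ^ 3 := by nlinarith
  have hK0 : 0 < K := by nlinarith
  set s := ⌈u⌉₊ with hs
  set N := ⌊K / (50 * u ^ 2)⌋₊ with hN
  have s1 : u ≤ s := Nat.le_ceil u
  have s2 : (s : ℝ) < u + 1 := Nat.ceil_lt_add_one hu0.le
  have n1 : (N : ℝ) * (50 * u ^ 2) ≤ K := by
    rw [← le_div_iff₀ (by positivity)]; exact Nat.floor_le (by positivity)
  have n2 : K < (N + 1) * (50 * u ^ 2) := by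
    rw [← div_lt_iff₀ (by positivity)]; exact Nat.lt_floor_add_one _
  have n3 : (1 : ℝ) ≤ N := by
    by_contra hh
    nlinarith [not_le.1 hh]
  have n4 : K ≤ N * (100 * u ^ 2) := by nlinarith
  have s0 : 0 < s := by
    have : (0 : ℝ) < s := by linarith
    exact_mod_cast this
  have N0 : 0 < N := by exact_mod_cast n3
  set B := M / (N * s) with hB
  have b1 : N * s * B ≤ M := Nat.mul_div_le _ _
  have b2 : M < N * s * (B + 1) := Nat.lt_mul_div_succ _ (Nat.mul_pos N0 s0)
  have b3 : (N : ℝ) * s * B ≤ M := by exact_mod_cast b1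
  have b4 : (M : ℝ) + 1 ≤ N * s * (B + 1) := by exact_mod_cast b2
  set β := (s : ℝ) * (B / K) with hβ
  have e : β * K = s * B := by rw [hβ]; field_simp
  have β0 : 0 ≤ β := by positivity
  have c1 : N * β ≤ K := by
    have : N * β * K ≤ K * K := by nlinarith
    exact le_of_mul_le_mul_right this hK0
  have c2 : K ≤ N * (β + 1) := by
    have h1 : (s : ℝ) ≤ K := by nlinarith
    have : K * K ≤ N * (β + 1) * K := by
      nlinarith [mul_le_mul_of_nonneg_left h1 (by linarith : (0 : ℝ) ≤ N)]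
    exact le_of_mul_le_mul_right this hK0
  have c3 : β ≤ 100 * u ^ 2 := le_of_mul_le_mul_left (c1.trans n4) (by linarith)
  have c4 : 50 * u ^ 2 ≤ β + 1 := le_of_mul_le_mul_left (n1.trans c2) (by linarith)
  refine ⟨s, N, B, s0, N0, b1, by linarith, ?_, by linarith, c3, c2⟩
  have b0 : (0 : ℝ) ≤ B / K := by positivity
  have : u * (B / K) ≤ u * (100 * u) := by nlinarith [mul_le_mul_of_nonneg_right s1 b0]
  exact le_of_mul_le_mul_left this hu0

open Classical in
/-- the averaging argument over windows -/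
theorem core (A : Finset α) (u K : ℝ) (M : ℕ) (C : α → ℕ → ℕ) (x : α → ℝ)
    (hu : 2 ≤ u) (hk : (A.card : ℝ) = 216000 * u ^ 3) (hK1 : (A.card : ℝ) ≤ 2 * K)
    (hM1 : (M : ℝ) ≤ K ^ 2) (hM2 : K ^ 2 ≤ M + 1) (hC : ∀ a, Monotone (C a))
    (hx : ∀ a ∈ A, (C a M : ℝ) = K * (1 + x a - 1 / u ^ 2))
    (hx1 : ∀ a ∈ A, -1 ≤ x a) (hx3 : ∀ a ∈ A, x a ≤ 3)
    (star : ∀ p l : ℕ, p + l ≤ M → ∀ g : ℕ, 1 ≤ g → (g : ℝ) ≤ K / 2 →
      (A.filter (fun a => C a (p + l) - C a p < g ∧
        (g : ℝ) ≤ (l / K - A.card / K) * (1 + x a + x a ^ 2 / 2))).card < g) : False := by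
  have hu0 : 0 < u := by linarith
  have hu2 : 4 ≤ u ^ 2 := by nlinarith
  have hu3 : 2 * u ^ 2 ≤ u ^ 3 := by nlinarith
  have hK : 108000 * u ^ 3 ≤ K := by linarith
  have hK0 : 0 < K := by nlinarith
  obtain ⟨s, N, B, s0, N0, b1, s2, b2, b3, b4, b5⟩ := params u K M hu hK hM1 hM2
  set b := (B : ℝ) / K with hb
  set κ := (A.card : ℝ) / K with hκ
  set ψ : α → ℝ := fun a => 1 + x a + x a ^ 2 / 2 with hψ
  have κ0 : 0 ≤ κ := by positivity
  have κ2 : κ ≤ 2 := by rw [hκ, div_le_iff₀ hK0]; exact hK1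
  have ψ0 : ∀ a, 0 < ψ a := fun a => by simp only [hψ]; nlinarith [sq_nonneg (x a + 1)]
  have ψ9 : ∀ a ∈ A, ψ a ≤ 9 := fun a ha => by
    simp only [hψ]; nlinarith [hx1 a ha, hx3 a ha]
  have star2 : ∀ S ⊆ A, ∀ p l : ℕ, p + l ≤ M → 9 * ((l : ℝ) / K) ≤ K / 2 → ∀ g : ℕ,
      ((S.filter (fun a => C a (p + l) - C a p < g ∧ (g : ℝ) ≤ (l / K - κ) * ψ a)).card : ℝ) ≤
        9 * (l / K) := by
    intro S hS p l h1 h2 g
    have l0 : 0 ≤ (l : ℝ) / K := by positivity
    rcases (S.filter (fun a => C a (p + l) - C a p < g ∧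
      (g : ℝ) ≤ (l / K - κ) * ψ a)).eq_empty_or_nonempty with h | ⟨a, ha⟩
    · rw [h, Finset.card_empty, Nat.cast_zero]; positivity
    obtain ⟨a1, a2, a3⟩ := Finset.mem_filter.1 ha
    have g1 : (g : ℝ) ≤ 9 * (l / K) := by
      nlinarith [ψ0 a, ψ9 a (hS a1), mul_nonneg κ0 (ψ0 a).le]
    have := (Finset.card_le_card (Finset.filter_subset_filter _ hS)).trans
      (star p l h1 g (by omega) (g1.trans h2)).le
    exact (Nat.cast_le.2 this).trans g1
  have cls : ∀ S ⊆ A, (∀ a ∈ S, ∀ a' ∈ S, |x a - x a'| * u ≤ 1) →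
      ∑ a ∈ S, (1 + (x a * u) ^ 2 / 2) ≤ 24102 * u ^ 3 := by
    intro S hS hd
    have eB : ((s * B : ℕ) : ℝ) / K = s * b := by rw [hb]; push_cast; ring
    have win : ∀ i ∈ range N, ∑ a ∈ S, ((s * b - κ) * ψ a -
        (C a ((i + 1) * (s * B)) - C a (i * (s * B)) : ℕ) - 1) ≤ 9 * (s * b) * (1339 * u) := by
      intro i hi
      have hi' : (i + 1) * (s * B) ≤ M := by
        rw [Nat.mul_assoc] at b1
        exact (Nat.mul_le_mul_right _ (Finset.mem_range.1 hi)).trans b1
      have tel : ∀ a, ∑ t ∈ range s, (C a (i * (s * B) + t * B + B) - C a (i * (s * B) + t * B)) =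
          C a (i * (s * B) + s * B) - C a (i * (s * B)) := by
        intro a
        have := Finset.sum_range_tsub (f := fun t => C a (i * (s * B) + t * B))
          (fun t t' h => hC a (Nat.add_le_add_left (Nat.mul_le_mul_right _ h) _)) s
        simpa only [Nat.add_mul, Nat.one_mul, Nat.zero_mul, Nat.add_zero, Nat.add_assoc] using this
      have T := two_scale S ψ s s0
        (fun t a => C a (i * (s * B) + t * B + B) - C a (i * (s * B) + t * B)) b κ (4 / u) κ0 κ2
        (by linarith) (by positivity) (fun a _ => ψ0 a) (fun a ha => ψ9 a (hS ha))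
        (by
          intro a ha a' ha'
          have d := hd a ha a' ha'
          have d2 : |x a - x a'| * 4 ≤ 4 / u := by rw [le_div_iff₀ hu0]; linarith
          have d3 : (x a - x a') * (1 + (x a + x a') / 2) ≤ |x a - x a'| * 4 :=
            (mul_le_mul_of_nonneg_right (le_abs_self _)
              (by linarith [hx1 a (hS ha), hx1 a' (hS ha')])).trans
              (mul_le_mul_of_nonneg_left (by linarith [hx3 a (hS ha), hx3 a' (hS ha')])
                (abs_nonneg _))
          simp only [hψ]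
          nlinarith)
        (by
          intro g
          have := star2 S hS (i * (s * B)) (s * B) (by rwa [Nat.add_mul, Nat.one_mul] at hi')
            (by rw [eB]; linarith) g
          simpa only [tel, eB] using this)
        (by
          intro t ht g
          refine star2 S hS (i * (s * B) + t * B) B ?_ (by nlinarith) g
          have := Nat.mul_le_mul_right B (Nat.succ_le_of_lt ht)
          rw [Nat.add_mul, Nat.one_mul] at hi'
          rw [Nat.succ_mul] at this
          omega)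
      simp only [tel] at T
      rw [Nat.add_mul, Nat.one_mul]
      refine T.trans (mul_le_mul_of_nonneg_left ?_ (by positivity))
      have : s * b * (4 / u) ≤ 400 * u := by
        rw [← mul_div_assoc, div_le_iff₀ hu0]; nlinarith
      linarith
    have W := Finset.sum_le_card_nsmul _ _ _ win
    rw [Finset.card_range, nsmul_eq_mul, Finset.sum_comm] at W
    have N1 : (0 : ℝ) < N := by exact_mod_cast N0
    have mar : ∀ a ∈ S, N * (s * b) / (2 * u ^ 2) * (1 + (x a * u) ^ 2 / 2) ≤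
        ∑ i ∈ range N, ((s * b - κ) * ψ a -
          (C a ((i + 1) * (s * B)) - C a (i * (s * B)) : ℕ) - 1) := by
      intro a ha
      have tel := Finset.sum_range_tsub (f := fun i => C a (i * (s * B)))
        (fun t t' h => hC a (Nat.mul_le_mul_right _ h)) N
      rw [Finset.sum_sub_distrib, Finset.sum_sub_distrib, ← Nat.cast_sum, tel]
      simp only [Finset.sum_const, Finset.card_range, nsmul_eq_mul]
      have m1 : ((C a (N * (s * B)) - C a (0 * (s * B)) : ℕ) : ℝ) ≤ C a M :=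
        Nat.cast_le.2 ((Nat.sub_le _ _).trans (hC a (by rwa [Nat.mul_assoc] at b1)))
      set γ := 1 / u ^ 2 with hγ
      have γ0 : 0 < γ := by positivity
      have γ1 : 46 ≤ s * b * γ := by rw [hγ, mul_one_div, le_div_iff₀ (by positivity)]; linarith
      have m2 : 0 ≤ 1 + x a - γ := by
        have : 0 ≤ K * (1 + x a - γ) := hx a (hS ha) ▸ Nat.cast_nonneg _
        exact le_of_mul_le_mul_left (by simpa using this) hK0
      have m3 : (C a M : ℝ) ≤ N * (s * b + 1) * (1 + x a - γ) :=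
        hx a (hS ha) ▸ mul_le_mul_of_nonneg_right b5 m2
      have m4 : N * (s * b) / (2 * u ^ 2) * (1 + (x a * u) ^ 2 / 2) =
          N * (s * b / 2 * (γ + x a ^ 2 / 2)) := by rw [hγ]; field_simp
      have m5 : κ * ψ a ≤ 18 := by nlinarith [ψ0 a, ψ9 a (hS ha)]
      have m6 : s * b / 2 * (γ + x a ^ 2 / 2) ≤
          (s * b - κ) * ψ a - (s * b + 1) * (1 + x a - γ) - 1 := by
        have : 0 ≤ s * b * x a ^ 2 := mul_nonneg (by linarith) (sq_nonneg _)
        have e : (s * b - κ) * ψ a = s * b * (1 + x a + x a ^ 2 / 2) - κ * ψ a := by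
          simp only [hψ]; ring
        rw [e]
        nlinarith [hx3 a (hS ha)]
      rw [m4]
      nlinarith [mul_le_mul_of_nonneg_left m6 N1.le]
    have W2 := (Finset.sum_le_sum mar).trans W
    rw [← Finset.mul_sum] at W2
    have p0 : 0 < N * (s * b) / (2 * u ^ 2) := div_pos (mul_pos N1 (by linarith)) (by positivity)
    refine le_of_mul_le_mul_left (W2.trans (le_of_eq ?_)) p0
    field_simp
    ring
  have side : ∀ (S : Finset α) (y : α → ℝ), S ⊆ A → (∀ a ∈ S, 0 ≤ y a) →
      (∀ a, y a ^ 2 = (x a * u) ^ 2) → (∀ a a', |x a - x a'| * u = |y a - y a'|) →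
      (S.card : ℝ) ≤ 4 * (24102 * u ^ 3) := by
    intro S y hS hy h1 h2
    refine classes S y _ (by positivity) hy (fun i => ?_)
    simp only [h1]
    refine cls _ ((Finset.filter_subset _ _).trans hS) (fun a ha a' ha' => ?_)
    obtain ⟨a1, a2⟩ := Finset.mem_filter.1 ha
    obtain ⟨c1, c2⟩ := Finset.mem_filter.1 ha'
    have := Nat.floor_le (hy a a1)
    have := Nat.floor_le (hy a' c1)
    have := Nat.lt_floor_add_one (y a)
    have := Nat.lt_floor_add_one (y a')
    rw [h2, abs_le]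
    rw [a2] at *
    rw [c2] at *
    constructor <;> linarith
  have P := side (A.filter (fun a => 0 ≤ x a)) (fun a => x a * u) (Finset.filter_subset _ _)
    (fun a ha => mul_nonneg (Finset.mem_filter.1 ha).2 hu0.le) (fun _ => rfl)
    (fun a a' => by rw [← sub_mul, abs_mul, abs_of_pos hu0])
  have Q := side (A.filter (fun a => ¬ 0 ≤ x a)) (fun a => -(x a * u)) (Finset.filter_subset _ _)
    (fun a ha => by nlinarith [not_le.1 (Finset.mem_filter.1 ha).2]) (fun _ => by ring)
    (fun a a' => by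
      rw [neg_sub_neg, abs_sub_comm (x a' * u), ← sub_mul, abs_mul, abs_of_pos hu0])
  have R := Finset.card_filter_add_card_filter_not (s := A) (fun a => 0 ≤ x a)
  have R2 : ((A.filter (fun a => 0 ≤ x a)).card : ℝ) + (A.filter (fun a => ¬ 0 ≤ x a)).card =
      A.card := by exact_mod_cast R
  nlinarith

end Pool.Agent.P.MP_02a1b3_co.Ft
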