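import Mathlib

set_option autoImplicit false

namespace Pool.Agent.P.MP_02a1b3_co.Ft

open Finset

variable {α : Type}

open Classical in
/-- double counting of pairs (letter, threshold) -/
theorem cnt (S : Finset α) (c : α → ℕ) (H : α → ℝ) (lo hi : ℕ) (T : ℝ)
    (h1 : ∀ a ∈ S, lo ≤ c a) (h2 : ∀ a ∈ S, H a < hi + 1)
    (h3 : ∀ g : ℕ, ((S.filter (fun a => c a < g ∧ (g : ℝ) ≤ H a)).card : ℝ) ≤ T) :
    ∑ a ∈ S, (H a - c a - 1) ≤ ((hi - lo : ℕ) : ℝ) * T := by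
  have e1 : ∀ a ∈ S, H a - c a - 1 ≤
      ∑ g ∈ Ioc lo hi, (if c a < g ∧ (g : ℝ) ≤ H a then (1 : ℝ) else 0) := by
    intro a ha
    rw [Finset.sum_boole]
    by_cases hh : H a < c a + 1
    · have : (0 : ℝ) ≤ ((Ioc lo hi).filter (fun g : ℕ => c a < g ∧ (g : ℝ) ≤ H a)).card :=
        Nat.cast_nonneg _
      linarith
    have h0 : 0 ≤ H a := by
      have : (0 : ℝ) ≤ c a := Nat.cast_nonneg _
      linarith
    have hf : c a ≤ ⌊H a⌋₊ := Nat.le_floor (by linarith)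
    have hs : Ioc (c a) ⌊H a⌋₊ ⊆ (Ioc lo hi).filter (fun g : ℕ => c a < g ∧ (g : ℝ) ≤ H a) := by
      intro g hg
      obtain ⟨g1, g2⟩ := Finset.mem_Ioc.1 hg
      have g3 : (g : ℝ) ≤ H a := (Nat.le_floor_iff h0).1 g2
      refine Finset.mem_filter.2 ⟨Finset.mem_Ioc.2 ⟨(h1 a ha).trans_lt g1, ?_⟩, g1, g3⟩
      have : (g : ℝ) < (hi + 1 : ℕ) := by push_cast; linarith [h2 a ha]
      have := Nat.cast_lt.1 this
      omega
    have h4 := Finset.card_le_card hs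
    rw [Nat.card_Ioc] at h4
    have h5 : ((⌊H a⌋₊ - c a : ℕ) : ℝ) ≤ _ := Nat.cast_le.2 h4
    rw [Nat.cast_sub hf] at h5
    linarith [Nat.lt_floor_add_one (H a)]
  refine (Finset.sum_le_sum e1).trans ?_
  rw [Finset.sum_comm]
  refine (Finset.sum_le_card_nsmul _ _ T (fun g _ => ?_)).trans ?_
  · rw [Finset.sum_boole]; exact h3 g
  · rw [Nat.card_Ioc, nsmul_eq_mul]

open Classical in
/-- one long window made of `s` short windows, for a class of letters of similar weight -/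
theorem two_scale (S : Finset α) (ψ : α → ℝ) (s : ℕ) (hs : 0 < s) (c : ℕ → α → ℕ)
    (b κ ρ : ℝ) (hκ0 : 0 ≤ κ) (hκ : κ ≤ 2) (hb : κ ≤ s * b) (hρ : 0 ≤ ρ)
    (hψ0 : ∀ a ∈ S, 0 < ψ a) (hψ : ∀ a ∈ S, ψ a ≤ 9)
    (hρ' : ∀ a ∈ S, ∀ a' ∈ S, ψ a ≤ ψ a' + ρ)
    (h1 : ∀ g : ℕ, ((S.filter (fun a => ∑ t ∈ range s, c t a < g ∧
      (g : ℝ) ≤ (s * b - κ) * ψ a)).card : ℝ) ≤ 9 * (s * b))
    (h2 : ∀ t < s, ∀ g : ℕ, ((S.filter (fun a => c t a < g ∧
      (g : ℝ) ≤ (b - κ) * ψ a)).card : ℝ) ≤ 9 * b) :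
    ∑ a ∈ S, ((s * b - κ) * ψ a - (∑ t ∈ range s, c t a : ℕ) - 1) ≤
      9 * (s * b) * (s * b * ρ + 1 + 9 * b + 19 * s) := by
  have hs1 : (1 : ℝ) ≤ s := by exact_mod_cast hs
  have hb0 : 0 ≤ b := by
    by_contra hh
    nlinarith [not_le.1 hh]
  have hsb : 0 ≤ s * b := by positivity
  rcases S.eq_empty_or_nonempty with rfl | hS
  · rw [Finset.sum_empty]; positivity
  obtain ⟨a0, ha0, hmin⟩ := Finset.exists_min_image S ψ hS
  have hd : 0 ≤ s * b - κ := by linarith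
  have h0 : 0 ≤ (s * b - κ) * ψ a0 := mul_nonneg hd (hψ0 a0 ha0).le
  set lo := ⌊(s * b - κ) * ψ a0⌋₊ with hlo
  set hi := ⌊(s * b - κ) * (ψ a0 + ρ)⌋₊ with hhi
  set Z := S.filter (fun a => ∑ t ∈ range s, c t a < lo) with hZ
  have sub : ∀ (S' : Finset α) (p : α → Prop) [DecidablePred p], S' ⊆ S →
      ((S'.filter p).card : ℝ) ≤ (S.filter p).card := fun S' p _ h =>
    Nat.cast_le.2 (Finset.card_le_card (Finset.filter_subset_filter _ h))
  have hZc : (Z.card : ℝ) ≤ 9 * (s * b) := by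
    refine le_trans (Nat.cast_le.2 (Finset.card_le_card fun a ha => ?_)) (h1 lo)
    obtain ⟨a1, a2⟩ := Finset.mem_filter.1 ha
    exact Finset.mem_filter.2 ⟨a1, a2, (Nat.floor_le h0).trans
      (mul_le_mul_of_nonneg_left (hmin a a1) hd)⟩
  have A := cnt (S.filter (fun a => ¬ ∑ t ∈ range s, c t a < lo)) (fun a => ∑ t ∈ range s, c t a)
    (fun a => (s * b - κ) * ψ a) lo hi (9 * (s * b))
    (fun a ha => not_lt.1 (Finset.mem_filter.1 ha).2)
    (fun a ha => (mul_le_mul_of_nonneg_left (hρ' a (Finset.mem_filter.1 ha).1 a0 ha0)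
      hd).trans_lt (Nat.lt_floor_add_one _))
    (fun g => (sub _ _ (Finset.filter_subset _ _)).trans (h1 g))
  have A2 : ((hi - lo : ℕ) : ℝ) ≤ s * b * ρ + 1 := by
    have hle : lo ≤ hi := Nat.floor_le_floor (mul_le_mul_of_nonneg_left (by linarith) hd)
    rw [Nat.cast_sub hle]
    have e1 : (hi : ℝ) ≤ (s * b - κ) * (ψ a0 + ρ) :=
      Nat.floor_le (mul_nonneg hd (by linarith [hψ0 a0 ha0]))
    have e2 := Nat.lt_floor_add_one ((s * b - κ) * ψ a0)
    nlinarith [mul_nonneg hκ0 hρ]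
  have B : ∀ t ∈ range s, ∑ a ∈ Z, ((b - κ) * ψ a - c t a - 1) ≤ 9 * b * (9 * b) := by
    intro t ht
    have := cnt Z (c t) (fun a => (b - κ) * ψ a) 0 ⌊9 * b⌋₊ (9 * b) (fun _ _ => Nat.zero_le _)
      (fun a ha => by
        have a1 := (Finset.mem_filter.1 ha).1
        have := Nat.lt_floor_add_one (9 * b)
        nlinarith [hψ0 a a1, hψ a a1, mul_nonneg hκ0 (hψ0 a a1).le])
      (fun g => (sub _ _ (Finset.filter_subset _ _)).trans (h2 t (Finset.mem_range.1 ht) g))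
    refine this.trans (mul_le_mul_of_nonneg_right ?_ (by positivity))
    rw [Nat.sub_zero]
    exact Nat.floor_le (by positivity)
  have C : ∀ a ∈ Z, (s * b - κ) * ψ a - (∑ t ∈ range s, c t a : ℕ) - 1 ≤
      ∑ t ∈ range s, ((b - κ) * ψ a - c t a - 1) + 19 * s := by
    intro a ha
    have a1 := (Finset.mem_filter.1 ha).1
    rw [Finset.sum_sub_distrib, Finset.sum_sub_distrib]
    simp only [Finset.sum_const, Finset.card_range, nsmul_eq_mul, Nat.cast_sum]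
    have e1 : κ * ψ a ≤ 18 := by nlinarith [hψ0 a a1, hψ a a1]
    have e2 : 0 ≤ κ * ψ a := mul_nonneg hκ0 (hψ0 a a1).le
    nlinarith
  have D := Finset.sum_le_sum C
  rw [Finset.sum_add_distrib, Finset.sum_comm, Finset.sum_const, nsmul_eq_mul] at D
  have D2 := Finset.sum_le_card_nsmul _ _ _ B
  rw [Finset.card_range, nsmul_eq_mul] at D2
  rw [← Finset.sum_filter_add_sum_filter_not S (fun a => ∑ t ∈ range s, c t a < lo)]
  have D3 := mul_le_mul_of_nonneg_right A2 (show 0 ≤ 9 * (s * b) by positivity)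
  have D4 := mul_le_mul_of_nonneg_right hZc (show (0 : ℝ) ≤ 19 * s by positivity)
  nlinarith

theorem tele (I : ℕ) : ∑ i ∈ range I, (1 : ℝ) / ((i + 1) * (i + 2)) = 1 - 1 / (I + 1) := by
  induction I with
  | zero => simp
  | succ n ih =>
    rw [Finset.sum_range_succ, ih]
    push_cast
    field_simp
    ring

open Classical in
/-- pigeonhole over the classes `i ≤ y < i + 1` -/
theorem classes (S : Finset α) (y : α → ℝ) (Q : ℝ) (hQ : 0 ≤ Q) (hy : ∀ a ∈ S, 0 ≤ y a)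
    (h : ∀ i : ℕ, ∑ a ∈ S.filter (fun a => ⌊y a⌋₊ = i), (1 + y a ^ 2 / 2) ≤ Q) :
    (S.card : ℝ) ≤ 4 * Q := by
  obtain ⟨I, hI⟩ : ∃ I, ∀ a ∈ S, ⌊y a⌋₊ ∈ range I :=
    ⟨S.sup (fun a => ⌊y a⌋₊) + 1, fun a ha => Finset.mem_range.2
      (Nat.lt_succ_of_le (Finset.le_sup (f := fun a => ⌊y a⌋₊) ha))⟩
  rw [Finset.card_eq_sum_card_fiberwise hI, Nat.cast_sum]
  have e : ∀ i ∈ range I, ((S.filter (fun a => ⌊y a⌋₊ = i)).card : ℝ) ≤
      4 * Q * (1 / ((i + 1) * (i + 2))) := by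
    intro i _
    have e1 := Finset.card_nsmul_le_sum (S.filter (fun a => ⌊y a⌋₊ = i))
      (fun a => 1 + y a ^ 2 / 2) (((i : ℝ) + 1) * (i + 2) / 4) (by
        intro a ha
        obtain ⟨a1, a2⟩ := Finset.mem_filter.1 ha
        have a3 : (i : ℝ) ≤ y a := a2 ▸ Nat.floor_le (hy a a1)
        have a4 : (0 : ℝ) ≤ i := Nat.cast_nonneg _
        have a5 : (0 : ℝ) ≤ ((i : ℝ) - 1) * (i - 2) := by
          rcases Nat.lt_or_ge i 2 with h2 | h2
          · have : (i : ℝ) ≤ 1 := by exact_mod_cast Nat.lt_succ_iff.1 h2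
            nlinarith
          · have : (2 : ℝ) ≤ i := by exact_mod_cast h2
            nlinarith
        nlinarith)
    rw [nsmul_eq_mul] at e1
    have e2 := e1.trans (h i)
    rw [mul_one_div, le_div_iff₀ (by positivity)]
    linarith
  refine (Finset.sum_le_sum e).trans ?_
  rw [← Finset.mul_sum, tele]
  have : (0 : ℝ) ≤ 1 / (I + 1) := by positivity
  nlinarith

end Pool.Agent.P.MP_02a1b3_co.Ft
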