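import Pool.Agent.P.MP_02a1b3_co.Ft.Comb
import Pool.Agent.P.MP_02a1b3_co.Ft.Core

set_option autoImplicit false

namespace Pool.Agent.P.MP_02a1b3_co.Ft

variable {α : Type} [DecidableEq α]

/-- the lower bound proved by induction on the number of letters -/
noncomputable def F (k : ℕ) : ℝ := (max ((k : ℝ) - 10800 * (k : ℝ) ^ (1 / 3 : ℝ)) 0) ^ 2

theorem cube (k : ℕ) : ((k : ℝ) ^ (1 / 3 : ℝ)) ^ 3 = k := by
  rw [← Real.rpow_natCast, ← Real.rpow_mul (Nat.cast_nonneg _)]
  norm_num

theorem F_sub (k g : ℕ) (hg : g ≤ k) (t K : ℝ) (ht : t = (k : ℝ) ^ (1 / 3 : ℝ)) (t0 : 0 < t)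
    (hK : K = k - 10800 * t) (h : (g : ℝ) ≤ K) :
    (K - g * (1 - 1 / (t / 60) ^ 2)) ^ 2 ≤ F (k - g) := by
  have c1 := cube k
  have c2 := cube (k - g)
  rw [← ht] at c1
  set t' := ((k - g : ℕ) : ℝ) ^ (1 / 3 : ℝ) with ht'
  have t1 : 0 ≤ t' := Real.rpow_nonneg (Nat.cast_nonneg _) _
  have t2 : t' ≤ t := by
    rw [ht]
    exact Real.rpow_le_rpow (Nat.cast_nonneg _) (Nat.cast_le.2 (Nat.sub_le _ _)) (by norm_num)
  have g0 : (0 : ℝ) ≤ g := Nat.cast_nonneg _
  rw [Nat.cast_sub hg] at c2
  have e1 : (g : ℝ) ≤ (t - t') * (3 * t ^ 2) := by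
    have : (g : ℝ) = (t - t') * (t ^ 2 + t * t' + t' ^ 2) := by linarith
    rw [this]
    exact mul_le_mul_of_nonneg_left (by nlinarith) (by linarith)
  have e2 : g * (1 / (t / 60) ^ 2) ≤ 10800 * (t - t') := by
    rw [mul_one_div, div_le_iff₀ (by positivity)]
    nlinarith
  have e3 : 0 ≤ g * (1 / (t / 60) ^ 2) := by positivity
  rw [F, ← ht', Nat.cast_sub hg]
  exact pow_le_pow_left₀ (by linarith) (le_max_of_le_left (by linarith)) 2

theorem main (k : ℕ) : ∀ (A : Finset α) (v : List α), A.card = k → (∀ x ∈ v, x ∈ A) →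
    Univ A v → F k ≤ v.length := by
  induction k using Nat.strong_induction_on with
  | _ k ih =>
  intro A v0 hA hv0 hU0
  by_contra hlt
  rw [not_le] at hlt
  set t := (k : ℝ) ^ (1 / 3 : ℝ) with ht
  set K := (k : ℝ) - 10800 * t with hK
  have c1 : t ^ 3 = k := cube k
  have k0 : (0 : ℝ) ≤ k := Nat.cast_nonneg _
  have t00 : 0 ≤ t := Real.rpow_nonneg k0 _
  have hF : F k = (max K 0) ^ 2 := rfl
  by_cases hc : K ≤ k / 2
  · have h1 : ((A.card ^ 2 : ℕ) : ℝ) ≤ (4 * v0.length : ℕ) := Nat.cast_le.2 (triv hU0 hv0)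
    have h2 : (max K 0) ^ 2 ≤ ((k : ℝ) / 2) ^ 2 :=
      pow_le_pow_left₀ (le_max_right _ _) (max_le hc (by positivity)) 2
    rw [hA] at h1
    push_cast at h1
    nlinarith
  rw [not_le] at hc
  have t0 : 0 < t := by
    rcases t00.eq_or_lt with h | h
    · rw [← h] at c1 hK
      nlinarith
    · exact h
  have t1 : 21600 < t ^ 2 := by
    have : t * 21600 < t * t ^ 2 := by nlinarith
    exact lt_of_mul_lt_mul_left this t00
  have t2 : 120 ≤ t := by nlinarith
  have K2 : 2 ≤ K := by nlinarith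
  rw [hF, max_eq_left (by linarith)] at hlt
  obtain ⟨a0, ha0⟩ : A.Nonempty := Finset.card_pos.1 (by
    have : (0 : ℝ) < k := by nlinarith
    rw [hA]; exact_mod_cast this)
  obtain ⟨v, hv, hU, hM1, hM2⟩ : ∃ v : List α, (∀ x ∈ v, x ∈ A) ∧ Univ A v ∧
      (v.length : ℝ) < K ^ 2 ∧ K ^ 2 ≤ v.length + 1 := by
    have h1 : v0.length < ⌈K ^ 2⌉₊ := Nat.lt_ceil.2 hlt
    have h2 : (v0 ++ List.replicate (⌈K ^ 2⌉₊ - 1 - v0.length) a0).length + 1 = ⌈K ^ 2⌉₊ := by
      rw [List.length_append, List.length_replicate]; omega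
    refine ⟨v0 ++ List.replicate (⌈K ^ 2⌉₊ - 1 - v0.length) a0, fun x hx => ?_,
      fun l a b => (hU0 l a b).trans (List.sublist_append_left _ _),
      Nat.lt_ceil.1 (by omega), ?_⟩
    · rcases List.mem_append.1 hx with h | h
      · exact hv0 x h
      · exact (List.eq_of_mem_replicate h) ▸ ha0
    · have := Nat.le_ceil (K ^ 2)
      rw [← h2] at this
      exact_mod_cast this
  set γ := 1 / (t / 60) ^ 2 with hγ
  have γ0 : 0 < γ := by positivity
  have key : ∀ (u J w : List α) (G : Finset α), v = u ++ J ++ w → G ⊆ A → G.Nonempty →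
      (G.card : ℝ) ≤ K / 2 → (∀ b ∈ G, J.count b < G.card) →
      (J.length : ℝ) + ∑ a ∈ G, (v.count a : ℝ) < K * G.card * (2 - γ) + k := by
    intro u J w G e hG hne hg hJ
    obtain ⟨v', a1, a2, a3⟩ := step (e ▸ hU) (e ▸ hv) hG hne hJ
    have g1 := Finset.card_pos.2 hne
    have g2 : G.card ≤ k := hA ▸ Finset.card_le_card hG
    have b1 := ih (k - G.card) (by omega) (A \ G) v'
      (by rw [Finset.card_sdiff_of_subset hG, hA]) a2 a1
    have b2 := F_sub k G.card g2 t K ht t0 hK (by linarith)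
    rw [← e, hA] at a3
    have b3 : (v'.length : ℝ) + J.length + ∑ a ∈ G, (v.count a : ℝ) ≤
        v.length + G.card ^ 2 + k := by exact_mod_cast a3
    rw [← hγ] at b2
    have g0 : (0 : ℝ) ≤ G.card := Nat.cast_nonneg _
    have b4 : γ * G.card * (2 * G.card) ≤ γ * G.card * K :=
      mul_le_mul_of_nonneg_left (by linarith) (by positivity)
    nlinarith [sq_nonneg (γ * G.card)]
  have K0 : 0 < K := by linarith
  set x : α → ℝ := fun a => v.count a / K - 1 + γ with hx
  have xe : ∀ a, (v.count a : ℝ) = K * (1 + x a - γ) := fun a => by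
    simp only [hx]; field_simp; ring
  have x1 : ∀ a, -1 ≤ x a := fun a => by
    have : 0 ≤ (v.count a : ℝ) / K := by positivity
    simp only [hx]; linarith
  refine core A (t / 60) K v.length (fun a p => (v.take p).count a) x (by linarith)
    (by rw [hA, ← c1]; ring) (by rw [hA]; linarith) hM1.le hM2
    (fun a p q h => (List.take_sublist_take_left h).count_le a)
    (fun a _ => by rw [List.take_length]; exact xe a) (fun a _ => x1 a) (fun a ha => ?_) ?_
  · have := key [] [] v {a} (by simp) (by simpa using ha) (by simp) (by simp; linarith) (by simp)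
    simp only [List.length_nil, Nat.cast_zero, Finset.sum_singleton, Finset.card_singleton,
      Nat.cast_one, xe] at this
    have h : K * x a ≤ K * 3 := by nlinarith
    exact le_of_mul_le_mul_left h K0
  intro p l hpl g g1 g2
  by_contra hh
  obtain ⟨G, hG, hc⟩ := Finset.exists_subset_card_eq (not_lt.1 hh)
  have e : v = v.take p ++ (v.drop p).take l ++ (v.drop p).drop l := by
    rw [List.append_assoc, List.take_append_drop, List.take_append_drop]
  have hl : ((v.drop p).take l).length = l := by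
    rw [List.length_take, List.length_drop]; omega
  have := key _ _ _ G e (fun a ha => (Finset.mem_filter.1 (hG ha)).1)
    (Finset.card_pos.1 (by omega)) (by rwa [hc]) (by
      intro b hb
      have := (Finset.mem_filter.1 (hG hb)).2.1
      simp only [List.take_add, List.count_append] at this
      omega)
  rw [hl, hc] at this
  have g3 : (1 : ℝ) ≤ g := by exact_mod_cast g1
  have low : ∀ a ∈ G, K * (2 - γ) - (l - k) / g ≤ (v.count a : ℝ) := by
    intro a ha
    have h1 := (Finset.mem_filter.1 (hG ha)).2.2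
    rw [hA, ← sub_div] at h1
    set h := ((l : ℝ) - k) / K with hh
    have p0 : 0 < 1 + x a + x a ^ 2 / 2 := by nlinarith [sq_nonneg (x a + 1)]
    have h0 : 0 ≤ h := by
      by_contra h2
      nlinarith [mul_neg_of_neg_of_pos (not_le.1 h2) p0]
    have h3 : g * (1 - x a) ≤ h := by
      rcases le_total (x a) 1 with h4 | h4
      · have h5 := mul_le_mul_of_nonneg_right h1 (sub_nonneg.2 h4)
        have h6 : 0 ≤ h * (x a ^ 2 * (1 + x a)) :=
          mul_nonneg h0 (mul_nonneg (sq_nonneg _) (by linarith [x1 a]))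
        nlinarith
      · nlinarith
    rw [hh, le_div_iff₀ K0] at h3
    have h7 : K * (1 - x a) ≤ (l - k) / g := by rw [le_div_iff₀ (by linarith)]; linarith
    rw [xe]
    linarith
  have s := Finset.card_nsmul_le_sum G _ _ low
  rw [hc, nsmul_eq_mul, mul_sub, mul_div_cancel₀ _ (by linarith : (g : ℝ) ≠ 0)] at s
  linarith

theorem final (n : ℕ) (w : List (Fin n))
    (hw : ∀ π : Equiv.Perm (Fin n), (List.ofFn π).Sublist w) :
    (n : ℝ) ^ 2 - 21600 * (n : ℝ) ^ (4 / 3 : ℝ) ≤ w.length := by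
  have hU : Univ Finset.univ w := by
    intro l h1 _
    set L := l ++ (List.finRange n).filter (fun x => x ∉ l) with hL
    have n1 : L.Nodup := List.nodup_append.2 ⟨h1, (List.nodup_finRange n).filter _,
      fun a ha b hb hab => by
        have := (List.mem_filter.1 hb).2
        simp only [decide_eq_true_eq] at this
        exact this (hab ▸ ha)⟩
    have n2 : ∀ x, x ∈ L := fun x => by
      by_cases h : x ∈ l <;> simp [hL, h]
    have n3 : L.length = n := by
      have := ((List.perm_ext_iff_of_nodup n1 (List.nodup_finRange n)).2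
        (fun x => by simp [n2 x])).length_eq
      simpa using this
    have := hw ((finCongr n3.symm).trans (List.Nodup.getEquivOfForallMemList L n1 n2))
    refine (List.sublist_append_left l _).trans (?_ : L.Sublist w)
    convert this using 1
    apply List.ext_getElem
    · simp [n3]
    · intro i a b
      simp
  have h := main n Finset.univ w (by simp) (by simp) hU
  have n0 : (0 : ℝ) ≤ n := Nat.cast_nonneg _
  have e : (n : ℝ) ^ (4 / 3 : ℝ) = n * (n : ℝ) ^ (1 / 3 : ℝ) := by
    rw [show (4 / 3 : ℝ) = 1 + 1 / 3 by norm_num, Real.rpow_add' n0 (by norm_num), Real.rpow_one]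
  have t0 : 0 ≤ (n : ℝ) ^ (1 / 3 : ℝ) := Real.rpow_nonneg n0 _
  rw [e]
  refine le_trans ?_ h
  rw [F]
  set t := (n : ℝ) ^ (1 / 3 : ℝ)
  rcases le_total ((n : ℝ) - 10800 * t) 0 with a | a
  · rw [max_eq_right a]
    nlinarith [mul_nonneg n0 t0]
  · rw [max_eq_left a]
    nlinarith [sq_nonneg t]

end Pool.Agent.P.MP_02a1b3_co.Ft
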